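import Mathlib
import Pool.Agent.S07067

/-!
# `ex₃(n, G⁺) = Θ(n²)` for every graph `G` with `σ(G⁺) = 3`
-/

set_option autoImplicit false

namespace Pool.Agent.Results.MP_e3cf1a_co.ThetaNSquared

open Finset Filter Asymptotics

open Classical in
/-- The 3-uniform expansion `G⁺`: its vertices are the vertices of `G` and one new vertex for each
edge of `G`; its edges are the triples `{u, v, uv}` for the edges `uv` of `G`. -/
def expansion {V : Type} (G : SimpleGraph V) : Set (Finset (V ⊕ G.edgeSet)) :=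
  {T | ∃ (u v : V) (h : G.Adj u v),
    T = {Sum.inl u, Sum.inl v, Sum.inr ⟨s(u, v), (SimpleGraph.mem_edgeSet G).mpr h⟩}}

/-- A crosscut of a hypergraph: a set containing exactly one vertex of every edge. -/
def IsCrosscut {W : Type} (F : Set (Finset W)) (X : Finset W) : Prop :=
  ∀ e ∈ F, ∃! w, w ∈ e ∧ w ∈ X

/-- The crosscut number: least size of a crosscut. -/
noncomputable def sigma {W : Type} (F : Set (Finset W)) : ℕ :=
  sInf {s | ∃ X : Finset W, IsCrosscut F X ∧ X.card = s}

/-- `H` contains a copy of `F`: an injective map of the vertices sends edges of `F` to edges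
of `H`. -/
def Contains {n : ℕ} {W : Type} (H : Finset (Finset (Fin n))) (F : Set (Finset W)) : Prop :=
  ∃ φ : W ↪ Fin n, ∀ e ∈ F, e.map φ ∈ H

/-- The Turán number of a 3-graph `F`. -/
noncomputable def ex3 {W : Type} (n : ℕ) (F : Set (Finset W)) : ℕ :=
  sSup {m | ∃ H : Finset (Finset (Fin n)), (∀ e ∈ H, e.card = 3) ∧ ¬ Contains H F ∧ H.card = m}

theorem ex3_bdd {W : Type} (n : ℕ) (F : Set (Finset W)) :
    BddAbove {m | ∃ H : Finset (Finset (Fin n)),
      (∀ e ∈ H, e.card = 3) ∧ ¬ Contains H F ∧ H.card = m} := by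
  refine ⟨(Finset.univ : Finset (Finset (Fin n))).card, ?_⟩
  rintro m ⟨H, -, -, rfl⟩
  exact Finset.card_le_card (Finset.subset_univ H)

section

variable {V : Type} {G : SimpleGraph V}

theorem exists_unique_triple {W : Type} [DecidableEq W] (a b c : W) (hab : a ≠ b) (hac : a ≠ c) (hbc : b ≠ c)
    (X : Finset W) : (∃! w, w ∈ ({a, b, c} : Finset W) ∧ w ∈ X) ↔
      ((a ∈ X ∧ b ∉ X ∧ c ∉ X) ∨ (a ∉ X ∧ b ∈ X ∧ c ∉ X) ∨ (a ∉ X ∧ b ∉ X ∧ c ∈ X)) := by
  constructor
  · rintro ⟨w, ⟨hw, hwX⟩, huni⟩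
    have ha : a ∈ X → a = w := fun h => huni a ⟨by simp, h⟩
    have hb : b ∈ X → b = w := fun h => huni b ⟨by simp, h⟩
    have hc : c ∈ X → c = w := fun h => huni c ⟨by simp, h⟩
    simp only [mem_insert, mem_singleton] at hw
    rcases hw with rfl | rfl | rfl
    · exact Or.inl ⟨hwX, fun h => hab (hb h).symm, fun h => hac (hc h).symm⟩
    · exact Or.inr (Or.inl ⟨fun h => hab (ha h), hwX, fun h => hbc (hc h).symm⟩)
    · exact Or.inr (Or.inr ⟨fun h => hac (ha h), fun h => hbc (hb h), hwX⟩)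
  · rintro (⟨h1, h2, h3⟩ | ⟨h1, h2, h3⟩ | ⟨h1, h2, h3⟩)
    · refine ⟨a, ⟨by simp, h1⟩, ?_⟩
      rintro y ⟨hy, hyX⟩
      simp only [mem_insert, mem_singleton] at hy
      rcases hy with rfl | rfl | rfl
      · rfl
      · exact absurd hyX h2
      · exact absurd hyX h3
    · refine ⟨b, ⟨by simp, h2⟩, ?_⟩
      rintro y ⟨hy, hyX⟩
      simp only [mem_insert, mem_singleton] at hy
      rcases hy with rfl | rfl | rfl
      · exact absurd hyX h1
      · rfl
      · exact absurd hyX h3
    · refine ⟨c, ⟨by simp, h3⟩, ?_⟩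
      rintro y ⟨hy, hyX⟩
      simp only [mem_insert, mem_singleton] at hy
      rcases hy with rfl | rfl | rfl
      · exact absurd hyX h1
      · exact absurd hyX h2
      · rfl

open Classical in
/-- crosscuts of the expansion in terms of the edges of the graph -/
theorem crosscut_iff (X : Finset (V ⊕ G.edgeSet)) : IsCrosscut (expansion G) X ↔
    ∀ (u v : V) (h : G.Adj u v),
      ((Sum.inl u : V ⊕ G.edgeSet) ∈ X ∧ (Sum.inl v : V ⊕ G.edgeSet) ∉ X ∧
          (Sum.inr ⟨s(u, v), (SimpleGraph.mem_edgeSet G).mpr h⟩ : V ⊕ G.edgeSet) ∉ X) ∨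
      ((Sum.inl u : V ⊕ G.edgeSet) ∉ X ∧ (Sum.inl v : V ⊕ G.edgeSet) ∈ X ∧
          (Sum.inr ⟨s(u, v), (SimpleGraph.mem_edgeSet G).mpr h⟩ : V ⊕ G.edgeSet) ∉ X) ∨
      ((Sum.inl u : V ⊕ G.edgeSet) ∉ X ∧ (Sum.inl v : V ⊕ G.edgeSet) ∉ X ∧
          (Sum.inr ⟨s(u, v), (SimpleGraph.mem_edgeSet G).mpr h⟩ : V ⊕ G.edgeSet) ∈ X) := by
  have key : ∀ (u v : V) (h : G.Adj u v),
      (∃! w, w ∈ ({Sum.inl u, Sum.inl v, Sum.inr ⟨s(u, v), (SimpleGraph.mem_edgeSet G).mpr h⟩} :
        Finset (V ⊕ G.edgeSet)) ∧ w ∈ X) ↔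
      (((Sum.inl u : V ⊕ G.edgeSet) ∈ X ∧ (Sum.inl v : V ⊕ G.edgeSet) ∉ X ∧
          (Sum.inr ⟨s(u, v), (SimpleGraph.mem_edgeSet G).mpr h⟩ : V ⊕ G.edgeSet) ∉ X) ∨
      ((Sum.inl u : V ⊕ G.edgeSet) ∉ X ∧ (Sum.inl v : V ⊕ G.edgeSet) ∈ X ∧
          (Sum.inr ⟨s(u, v), (SimpleGraph.mem_edgeSet G).mpr h⟩ : V ⊕ G.edgeSet) ∉ X) ∨
      ((Sum.inl u : V ⊕ G.edgeSet) ∉ X ∧ (Sum.inl v : V ⊕ G.edgeSet) ∉ X ∧
          (Sum.inr ⟨s(u, v), (SimpleGraph.mem_edgeSet G).mpr h⟩ : V ⊕ G.edgeSet) ∈ X)) := by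
    intro u v h
    have huv : (Sum.inl u : V ⊕ G.edgeSet) ≠ Sum.inl v := fun hh => h.ne (Sum.inl.inj hh)
    exact exists_unique_triple _ _ _ huv Sum.inl_ne_inr Sum.inl_ne_inr X
  constructor
  · intro hX u v h
    have := hX _ ⟨u, v, h, rfl⟩
    refine (key u v h).1 ?_
    convert this
  · rintro hX e ⟨u, v, h, rfl⟩
    have := (key u v h).2 (hX u v h)
    convert this

end

theorem sigma_spec {W : Type} {F : Set (Finset W)} {k : ℕ} (hk : 0 < k) (h : sigma F = k) :
    (∃ X : Finset W, X.card = k ∧ IsCrosscut F X) ∧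
    ∀ X : Finset W, IsCrosscut F X → k ≤ X.card := by
  have hne : {s | ∃ X : Finset W, IsCrosscut F X ∧ X.card = s}.Nonempty := by
    apply Set.nonempty_iff_ne_empty.mpr
    intro hemp
    rw [sigma, hemp, Nat.sInf_empty] at h
    omega
  constructor
  · obtain ⟨X, hX, hc⟩ := Nat.sInf_mem hne
    exact ⟨X, hc.trans h, hX⟩
  · intro X hX
    rw [← h]
    exact Nat.sInf_le ⟨X, hX, rfl⟩

/-- **Lower bound**: all triples containing one fixed vertex. -/
theorem lower {W : Type} {F : Set (Finset W)} (hF : ∀ X : Finset W, IsCrosscut F X → 2 ≤ X.card)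
    (n : ℕ) : (n + 1 - 1).choose 2 ≤ ex3 (n + 1) F := by
  classical
  refine le_csSup (ex3_bdd _ _) ?_
  set H : Finset (Finset (Fin (n + 1))) :=
    (Finset.univ : Finset (Finset (Fin (n + 1)))).filter (fun e => e.card = 3 ∧ 0 ∈ e) with hH
  refine ⟨H, ?_, ?_, ?_⟩
  · intro e he
    rw [hH, mem_filter] at he
    exact he.2.1
  · rintro ⟨φ, hφ⟩
    -- the preimage of the vertex `0` is a crosscut
    by_cases hx : ∃ w, φ w = 0
    · obtain ⟨w, hw⟩ := hx
      have := hF {w} (by
        intro e he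
        have h1 := hφ e he
        rw [hH, mem_filter, Finset.mem_map] at h1
        obtain ⟨-, -, w', hw', h0⟩ := h1
        have : w' = w := φ.injective (by rw [h0, hw])
        subst this
        exact ⟨w', ⟨hw', by simp⟩, fun y hy => by simpa using hy.2⟩)
      rw [card_singleton] at this
      omega
    · have := hF ∅ (by
        intro e he
        have h1 := hφ e he
        rw [hH, mem_filter, Finset.mem_map] at h1
        obtain ⟨-, -, w', hw', h0⟩ := h1
        exact absurd ⟨w', h0⟩ hx)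
      rw [card_empty] at this
      omega
  · have : H = ((Finset.univ.erase (0 : Fin (n + 1))).powersetCard 2).image (insert 0) := by
      ext e
      rw [hH, mem_filter, mem_image]
      constructor
      · rintro ⟨-, h3, h0⟩
        refine ⟨e.erase 0, ?_, insert_erase h0⟩
        rw [mem_powersetCard]
        refine ⟨erase_subset_erase _ (subset_univ _), ?_⟩
        rw [card_erase_of_mem h0, h3]
      · rintro ⟨f, hf, rfl⟩
        rw [mem_powersetCard] at hf
        have h0 : (0 : Fin (n + 1)) ∉ f := fun h => by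
          have := hf.1 h
          simp at this
        refine ⟨mem_univ _, ?_, mem_insert_self _ _⟩
        rw [card_insert_of_notMem h0, hf.2]
    rw [this, card_image_of_injOn, card_powersetCard, card_erase_of_mem (mem_univ _), card_univ,
      Fintype.card_fin]
    intro f hf g hg hfg
    have h1 : ∀ f ∈ (Finset.univ.erase (0 : Fin (n + 1))).powersetCard 2, (0 : Fin (n + 1)) ∉ f := by
      intro f hf h
      rw [mem_powersetCard] at hf
      have := hf.1 h
      simp at this
    have h2 := congrArg (fun s => s.erase 0) hfg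
    simpa [erase_insert (h1 f hf), erase_insert (h1 g hg)] using h2

/-- **The order of magnitude of `ex₃(n, G⁺)` is `n²` for every finite graph `G` with
`σ(G⁺) = 3`.** -/
theorem result : ∀ (V : Type) [Fintype V] (G : SimpleGraph V), sigma (expansion G) = 3 →
    (fun n : ℕ => (ex3 n (expansion G) : ℝ)) =Θ[atTop] (fun n : ℕ => (n : ℝ) ^ 2) := by
  classical
  intro V _ G hσ
  obtain ⟨⟨X, hX3, hX⟩, hmin⟩ := sigma_spec (by norm_num) hσ
  constructor
  · -- upper bound
    obtain ⟨C, hC⟩ := Pool.Agent.S07067.result V G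
      ⟨⟨X, hX3, (crosscut_iff X).1 hX⟩, fun Y hY => hmin Y ((crosscut_iff Y).2 hY)⟩
    refine IsBigO.of_bound C (Eventually.of_forall fun n => ?_)
    have hne : {m | ∃ H : Finset (Finset (Fin n)), (∀ e ∈ H, e.card = 3) ∧
        ¬ Contains H (expansion G) ∧ H.card = m}.Nonempty := by
      refine ⟨0, ∅, by simp, ?_, by simp⟩
      rintro ⟨φ, hφ⟩
      -- the expansion has an edge as it has a crosscut number `3`
      have h0 := hmin ∅ (by
        intro e he
        exact absurd (hφ e he) (by simp))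
      simp at h0
    obtain ⟨H, h3, hfree, hcard⟩ := Nat.sSup_mem hne (ex3_bdd n (expansion G))
    have h1 := hC n H h3 (by
      rintro ⟨f, hf, g, hg, hfg, hmem⟩
      apply hfree
      refine ⟨⟨Sum.elim f g, ?_⟩, ?_⟩
      · rintro (a | a) (b | b) hab
        · exact congrArg _ (hf hab)
        · exact absurd hab.symm (hfg b a)
        · exact absurd hab (hfg a b)
        · exact congrArg _ (hg hab)
      · rintro e ⟨u, v, h, rfl⟩
        have := hmem u v h
        rw [Finset.map_insert, Finset.map_insert, Finset.map_singleton]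
        exact this)
    change H.card = ex3 n (expansion G) at hcard
    rw [hcard] at h1
    rw [Real.norm_of_nonneg (by positivity), Real.norm_of_nonneg (by positivity)]
    exact h1
  · -- lower bound
    refine IsBigO.of_bound 16 ?_
    filter_upwards [eventually_ge_atTop 4] with n hn
    obtain ⟨m, rfl⟩ : ∃ m, n = m + 1 := ⟨n - 1, by omega⟩
    have h1 := lower (F := expansion G) (fun X hX => by have := hmin X hX; omega) m
    rw [Real.norm_of_nonneg (by positivity), Real.norm_of_nonneg (by positivity)]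
    have h2 : (m + 1) ^ 2 ≤ 16 * (m + 1 - 1).choose 2 := by
      rw [Nat.add_sub_cancel, Nat.choose_two_right]
      have h3 : 2 ∣ m * (m - 1) := by
        rcases m with _ | m
        · simp
        · rw [Nat.add_sub_cancel]
          exact (Nat.even_mul_succ_self m).two_dvd.trans (by rw [mul_comm])
      obtain ⟨k, hk⟩ := h3
      rw [hk, Nat.mul_div_cancel_left _ (by norm_num)]
      obtain ⟨q, rfl⟩ : ∃ q, m = q + 3 := ⟨m - 3, by omega⟩
      have : (q + 3) * (q + 2) = 2 * k := hk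
      nlinarith
    have h4 : (((m + 1) ^ 2 : ℕ) : ℝ) ≤ ((16 * ex3 (m + 1) (expansion G) : ℕ) : ℝ) := by
      exact_mod_cast h2.trans (Nat.mul_le_mul_left _ h1)
    push_cast at h4 ⊢
    exact h4

end Pool.Agent.Results.MP_e3cf1a_co.ThetaNSquared
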